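import Pool.Agent.Helper28.TL.StV
import Pool.Agent.Helper14.WK.StA

/-!
# The Eichler potentials of a newform of level `4 p^n`, low levels
-/

set_option autoImplicit false

namespace Pool.Agent.Helper28.TLV

open Pool.Agent.Helper14.CV (G0 Homog EqC act)
open Pool.Agent.Helper14.WK
open Pool.Agent.Helper28.WK
open Pool.Agent.Helper28.LV (RgT RgU EG)
open Pool.Agent.Helper28.TL
open Pool.Agent.Helper4.TL

private theorem s_of (hP6 : SKP6) (N : ℕ) (hne : NeZero N) (A : ℕ) (f : CuspForm (G0 N) (2 * A + 2))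
    (I : ℤ → ℤ → ℕ → ℂ) (r M : ℕ) (hI : IsPotK A f I)
    (h : ∀ z : ℂ, 0 < z.im → ∑ i ∈ Finset.range r, ((i * (M : ℂ) * z + 1) ^ (2 * A + 2))⁻¹ *
      fzK f (z / (i * (M : ℂ) * z + 1)) = 0) (j : ℕ) (hj : j ≤ 2 * A) :
    ∃ C : ℂ, ∀ x y : ℤ, (x ≠ 0 ∨ y ≠ 0) → ∑ i ∈ Finset.range r,
      pr I (Polynomial.X ^ j * (1 - Polynomial.C ((M : ℤ) * i) * Polynomial.X) ^ (2 * A - j))
        x ((M : ℤ) * i * x + y) = C := by
  obtain ⟨C, hC⟩ := hP6 N hne A f I r M hI h j hj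
  refine ⟨C, fun x y hxy => ?_⟩
  rw [← hC x y hxy]
  refine Finset.sum_congr rfl fun i _ => ?_
  have e1 : (Polynomial.X ^ j * (1 - Polynomial.C ((M : ℤ) * i) * Polynomial.X) ^
      (2 * A - j) : Polynomial ℤ) = mp A 1 0 (-(i * (M : ℕ) : ℤ)) 1 j := by
    unfold mp
    congr 1
    · simp
    · congr 1
      push_cast
      simp only [Polynomial.C_mul, Polynomial.C_neg, Polynomial.C_1]
      ring
  rw [e1]
  congr 1
  ring

theorem not_dvd {p n l : ℕ} (hp : p.Prime) (hl : l.Prime) (hlp : l ≠ p) (hl2 : l ≠ 2) :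
    ¬ l ∣ 4 * p ^ n := by
  intro h
  rcases (Nat.Prime.dvd_mul hl).1 h with h | h
  · have : l ∣ 2 ^ 2 := by simpa using h
    exact hl2 ((Nat.prime_dvd_prime_iff_eq hl Nat.prime_two).1 (hl.dvd_of_dvd_pow this))
  · exact hlp ((Nat.prime_dvd_prime_iff_eq hl hp).1 (hl.dvd_of_dvd_pow h))

/-- Coordinate `2z`, any `n`. -/
theorem hBrgV (hA4 : SKA4) (hMod : SKMod) (hP1 : SKP1) (hP2 : SKP2) (hH3 : SKH3) (hA8 : SKA8)
    (hN2 : SKN2) (hN3 : SKN3) (hP5 : SKP5) (hP6 : SKP6) (hP4 : SKP4)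
    (p A n : ℕ) (hp : p.Prime) (hne : NeZero (4 * p ^ n))
    (hk : 0 < (2 * A + 2 : ℤ))
    (f : CuspForm (G0 (4 * p ^ n)) (2 * A + 2)) (hf : IsNewN f)
    (hε : RootOneK hk f) :
    ∃ I : ℤ → ℤ → ℕ → ℂ, IsPotK A f I ∧ IDnE p A n I := by
  obtain ⟨I, hI, hinf⟩ := hA4 (4 * p ^ n) hne A f
  have hp0 : p ^ n ≠ 0 := pow_ne_zero _ hp.ne_zero
  have t2a := trace_zero hN2 hN3 2 (2 * p ^ n) Nat.prime_two (dvd_mul_right _ _)
    (mul_ne_zero two_ne_zero hp0) A (4 * p ^ n) (by ring) f hf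
  have t2b := shift_zero hA8 2 (2 * p ^ n) Nat.prime_two
    (mul_ne_zero two_ne_zero hp0) A (4 * p ^ n) (by ring) hk f t2a hε
  refine ⟨I, hI, ?_⟩
  constructor
  · exact hP1 _ hne A f I hI
  · exact hinf
  · intro α β γ δ hdet hγ i hi
    have hM := hMod (4 * p ^ n) hne A f α β γ δ hdet (by push_cast; exact hγ)
    obtain ⟨C, hC⟩ := hP2 (4 * p ^ n) hne A f I α β γ δ 1 hI (by rw [hdet]; norm_num)
      (fun z hz => by rw [hM z hz, one_mul]) i hi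
    refine ⟨C, fun x y hxy => ?_⟩
    have h1 := hC x y hxy
    rw [hdet] at h1
    simp only [Int.cast_one, one_mul, mp] at h1
    exact h1
  · intro j hj x y hxy
    have := hP5 (4 * p ^ n) hne A f I 2 two_pos hI (fun z hz => t2b z hz) j hj x y hxy
    exact_mod_cast this
  · intro j hj
    obtain ⟨C, hC⟩ := s_of hP6 _ hne A f I 2 (2 * p ^ n) hI t2a j hj
    refine ⟨C, fun x y hxy => ?_⟩
    have := hC x y hxy
    push_cast at this
    exact this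
  · have h1 := hP4 (4 * p ^ n) hne A f I hI (hA8 (4 * p ^ n) hne A hk f hε)
    have e : ((4 * p ^ n : ℕ) : ℤ) = 4 * (p : ℤ) ^ n := by push_cast; rfl
    rw [← e]
    exact h1
  · refine ⟨fun l => fcK f l, fun l m hl hlp hl2 hm i hi x y hxy => ?_⟩
    exact hH3 (4 * p ^ n) hne A f I l (fcK f l) m hI hl.pos (hf.hecke l hl (not_dvd hp hl hlp hl2)) hm i hi x y hxy

/-- Back to the Eichler potentials. -/
theorem hTr2V (P a : ℕ) (I : ℤ → ℤ → ℕ → ℂ) (hP : P ≠ 0)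
    (hhom : ∀ i : ℕ, i ≤ 2 * a → Homog (cp I i)) (hinf : ∀ i : ℕ, i ≤ 2 * a → I 1 0 i = 0)
    (hz : ∀ i : ℕ, i ≤ 2 * a → EqC (cp (PhiOf P a I) i) 0) :
    ∀ i : ℕ, i ≤ 2 * a → ∀ x y : ℤ, (x ≠ 0 ∨ y ≠ 0) → I x y i + (-1) ^ (a + i) * I (-x) y i = 0 := by
  intro i hi x y hxy
  have hP0 : ((P : ℤ)) ≠ 0 := by exact_mod_cast hP
  obtain ⟨c, hc⟩ := hz i hi
  have hom : ∀ k u v : ℤ, k ≠ 0 → (u ≠ 0 ∨ v ≠ 0) → I (k * u) (k * v) i = I u v i :=
    fun k u v hk huv => hhom i hi k u v hk huv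
  have h10 : I 1 0 i = 0 := hinf i hi
  have hm10 : I (-1) 0 i = 0 := by
    have h := hom (-1) 1 0 (by norm_num) (Or.inl one_ne_zero)
    rw [mul_one, mul_zero, h10] at h
    exact h
  have hc0 : c = 0 := by
    have h := hc 1 0 (Or.inl one_ne_zero)
    have h' : ((P : ℤ) ^ i) • I 1 ((P : ℤ) * 0) i +
        ((-1 : ℤ) ^ (a + i) * (P : ℤ) ^ i) •
        I (-1) ((P : ℤ) * 0) i = 0 + c := h
    rw [mul_zero, h10, hm10, smul_zero, smul_zero, add_zero, zero_add] at h'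
    exact h'.symm
  have hne : (P : ℤ) * x ≠ 0 ∨ y ≠ 0 := by
    rcases hxy with h | h
    · exact Or.inl (mul_ne_zero hP0 h)
    · exact Or.inr h
  have hne' : (-x ≠ 0 ∨ y ≠ 0) := by
    rcases hxy with h | h
    · exact Or.inl (neg_ne_zero.mpr h)
    · exact Or.inr h
  have h := hc ((P : ℤ) * x) y hne
  have h' : ((P : ℤ) ^ i) • I ((P : ℤ) * x) ((P : ℤ) * y) i +
      ((-1 : ℤ) ^ (a + i) * (P : ℤ) ^ i) •
      I (-((P : ℤ) * x)) ((P : ℤ) * y) i = 0 + c := h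
  have e : -((P : ℤ) * x) = (P : ℤ) * (-x) := by ring
  rw [hom _ x y hP0 hxy, e, hom _ (-x) y hP0 hne', hc0, add_zero] at h'
  simp only [zsmul_eq_mul] at h'
  have h3 : ((P : ℤ) : ℂ) ^ i ≠ 0 := pow_ne_zero _ (by exact_mod_cast hP0)
  have h2 : ((P : ℤ) : ℂ) ^ i * (I x y i + (-1) ^ (a + i) * I (-x) y i) = 0 := by
    rw [Int.cast_pow, Int.cast_mul, Int.cast_pow, Int.cast_pow] at h'
    push_cast at h' ⊢
    linear_combination h'
  exact (mul_eq_zero.mp h2).resolve_left h3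

end Pool.Agent.Helper28.TLV
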