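import Pool.Agent.Helper28.TLV.M_ZV
import Pool.Agent.Helper28.TLV.M_BrgV
import Pool.Agent.Helper28.TLW.M_FinE

/-!
# From the constancy of the central component to the central values, levels `4`, `4p`, `4p²`
-/

set_option autoImplicit false

namespace Pool.Agent.Helper28.TLV

open Pool.Agent.Helper14.CV (G0 Homog EqC act)
open Pool.Agent.Helper14.WK
open Pool.Agent.Helper28.WK
open Pool.Agent.Helper28.TL
open Pool.Agent.Helper4.TL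

/-- The analytic statements of project WK used below. -/
theorem ana : SKA4 ∧ SKMod ∧ SKP1 ∧ SKP2 ∧ SKH3 ∧ SKA8 ∧ SKN2 ∧ SKN3 ∧ SKP5 ∧ SKP6 ∧ SKP4 ∧ SKA5 ∧
    SKIN := by
  have a1 := Pool.Agent.Helper63.WK.hKA1
  have a1b := Pool.Agent.Helper92.WK.hKA1b a1
  have ke := Pool.Agent.Helper6.WK.hKE a1
  have a3 := Pool.Agent.Helper80.WK.hKA3 ke
  have kmod := Pool.Agent.Helper32.WK.hKMod
  have a4 := Pool.Agent.Helper83.WK.hKA4 a1 a1b ke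
  have p1 := Pool.Agent.Helper69.WK.hKP1
  have p2 := Pool.Agent.Helper53.WK.hKP2 a3 p1
  have h1 := Pool.Agent.Helper79.WK.hKH1 a1
  have h2 := Pool.Agent.Helper99.WK.hKH2 h1 ke a1b
  have h3 := Pool.Agent.Helper62.WK.hKH3 h2 p1
  have a8 := Pool.Agent.Helper43.WK.hKA8 a1
  have n3 := Pool.Agent.Helper7.WK.hKN3 h1 kmod Pool.Agent.Helper10.CV.hN1
  have p5 := Pool.Agent.Helper66.WK.hKP5 ke a1b p1
  have p6 := Pool.Agent.Helper22.WK.hKP6 ke p1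
  have p4 := Pool.Agent.Helper10.WK.hKP4 p2
  have a5 := Pool.Agent.Helper86.WK.hKA5 a1 a1b ke
  have b1 := Pool.Agent.Helper82.WK.hKB1
  have b2 := Pool.Agent.Helper81.WK.hKB2 a1 a1b ke b1
  have b3 := Pool.Agent.Helper90.WK.hKB3 a1 b1
  have kin := Pool.Agent.Helper67.WK.hKIN b1 b2 b3 p1
  exact ⟨a4, kmod, p1, p2, h3, a8, Pool.Agent.Helper22.WK.hKN2, n3, p5, p6, p4, a5, kin⟩

/-- Coordinate `2z`. -/
theorem hFinV (hTr : VLTr) (hAll : VLAll) (p : ℕ) (hp : p.Prime) (hp2 : p ≠ 2)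
    (A n : ℕ) (hA : 1 ≤ A)
    (hQC : ∀ Φ : ℤ → ℤ → ℕ → ℂ, WSNE p A n Φ → EqC (cp Φ A) 0) (hne : NeZero (4 * p ^ n))
    (hk : 0 < (2 * A + 2 : ℤ))
    (f : CuspForm (G0 (4 * p ^ n)) (2 * A + 2)) (hf : IsNewN f)
    (hε : RootOneK hk f) : LanK hk f (1 / 2) ≠ 0 := by
  intro hL
  obtain ⟨a4, kmod, p1, p2, h3, a8, n2, n3, p5, p6, p4, a5, kin⟩ := ana
  obtain ⟨I, hI, hD⟩ := hBrgV a4 kmod p1 p2 h3 a8 n2 n3 p5 p6 p4 p A n hp hne hk f hf hε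
  have h0 := a5 (4 * p ^ n) hne A hk f I hI hL
  have hW := hTr p A n I hp hp2 hD h0
  have hc := hAll p A n _ hp hW (hQC _ hW)
  have hz := hTr2V 2 A I two_ne_zero hD.hom hD.inf hc
  have h1 := kin (4 * p ^ n) hne A f I hA hI hz 1 le_rfl
  rw [hf.normalised] at h1
  exact one_ne_zero h1

/-- Level `4 p²`. -/
theorem hFin2V (hTr : SETr) (hAll : SEAll) (p : ℕ) (hp : p.Prime) (hp2 : p ≠ 2)
    (A : ℕ) (hA : 1 ≤ A)
    (hQC : ∀ Φ : ℤ → ℤ → ℕ → ℂ, WSymE p A 0 Φ → EqC (cp Φ A) 0) (hne : NeZero (4 * p ^ 2))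
    (hk : 0 < (2 * A + 2 : ℤ))
    (f : CuspForm (G0 (4 * p ^ 2)) (2 * A + 2)) (hf : IsNewN f)
    (hε : RootOneK hk f) : LanK hk f (1 / 2) ≠ 0 := by
  intro hL
  obtain ⟨a4, kmod, p1, p2, h3, a8, n2, n3, p5, p6, p4, a5, kin⟩ := ana
  obtain ⟨I, hI, hD⟩ := Pool.Agent.Helper28.TLW.hBrgE a4 kmod p1 p2 h3 a8 n2 n3 p5 p6 p4
    p A 0 hp hp2 hne hk f hf hε
  have h0 := a5 (4 * p ^ 2) hne A hk f I hI hL
  have hW := hTr p A 0 I hp hp2 hD h0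
  have hc := hAll p A 0 _ hp hW (hQC _ hW)
  have hz := hTr2V (2 * p) A I (mul_ne_zero two_ne_zero hp.ne_zero) hD.hom hD.inf hc
  have h1 := kin (4 * p ^ 2) hne A f I hA hI hz 1 le_rfl
  rw [hf.normalised] at h1
  exact one_ne_zero h1

end Pool.Agent.Helper28.TLV
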