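import Pool.Agent.Helper28.TLV.M_FinV
import Pool.Agent.Helper28.TLW.GenE
import Pool.Agent.Helper1.LV.M_AV
import Pool.Agent.Helper34.LV.M_RgT
import Pool.Agent.Helper51.LV.M_RgU
import Pool.Agent.Helper47.LV.M_EG
import Pool.Agent.Helper2.TLV.M_M2A
import Pool.Agent.Helper29.TLV.M_LPol
import Pool.Agent.Helper96.TLV.M_LPol2
import Pool.Agent.Helper36.TLV.M_LLa
import Pool.Agent.Helper44.TLV.M_LMap
import Pool.Agent.Helper45.TLV.M_F2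
import Pool.Agent.Helper46.TLV.M_LW1
import Pool.Agent.Helper47.TLV.M_LAll
import Pool.Agent.Helper51.TLV.M_UIW
import Pool.Agent.Helper53.TLV.M_LDen
import Pool.Agent.Helper55.TLV.M_LQC
import Pool.Agent.Helper61.TLV.M_LW2
import Pool.Agent.Helper66.TLV.M_MCG
import Pool.Agent.Helper69.TLV.M_M2B
import Pool.Agent.Helper7.TLV.M_LW4
import Pool.Agent.Helper70.TLV.M_MS
import Pool.Agent.Helper71.TLV.M_EG
import Pool.Agent.Helper72.TLV.M_UIq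
import Pool.Agent.Helper73.TLV.M_F1
import Pool.Agent.Helper8.TLV.M_F0
import Pool.Agent.Helper81.TLV.M_LLb
import Pool.Agent.Helper85.TLV.M_LTr
import Pool.Agent.Helper86.TLV.M_MC

/-!
# Theorem A for twisted symbols implies nonvanishing at the levels `4`, `4p` (weights `≡ 2` modulo `4`), `4p²`
-/

set_option autoImplicit false

namespace Pool.Agent.Helper28.TLV

open Pool.Agent.Helper14.CV (G0 Homog EqC act)
open Pool.Agent.Helper14.WK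
open Pool.Agent.Helper28.WK
open Pool.Agent.Helper28.TL
open Pool.Agent.Helper4.TL
open Pool.Agent.Helper79.TL (UIpE)

theorem mcT : MCE :=
  Pool.Agent.Helper86.TLV.hMC (Pool.Agent.Helper66.TLV.hMCG Pool.Agent.Helper61.TLW.hGp
    Pool.Agent.Helper2.WK.hPl1 Pool.Agent.Helper13.TLW.hCC)

theorem msT : MSE :=
  Pool.Agent.Helper70.TLV.hMS mcT Pool.Agent.Helper2.WK.hPl1 Pool.Agent.Helper34.LV.hRgT Pool.Agent.Helper51.LV.hRgU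

theorem uiT : UIpE := Pool.Agent.Helper79.TL.hUIp Pool.Agent.Helper38.CV.hFar

theorem uqT : UIqE := Pool.Agent.Helper72.TLV.hUIq Pool.Agent.Helper38.CV.hFar

theorem uiwT : UIWE := Pool.Agent.Helper51.TLV.hUIW uiT

theorem egT : EGE := Pool.Agent.Helper71.TLV.hEG

theorem center0 (p : ℕ) (hp : p.Prime) (hp2 : p ≠ 2) (κ : ℤ) (hκ : κ ≠ 0) (hTA : TAE p κ) (a : ℕ)
    (Φ : ℤ → ℤ → ℕ → ℂ) (hW : WSNE p a 0 Φ) : EqC (cp Φ a) 0 :=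
  Pool.Agent.Helper55.TLV.hLQC Pool.Agent.Helper38.CV.hFar Pool.Agent.Helper44.TLV.hLMap
    Pool.Agent.Helper53.TLV.hLDen p ⟨hp⟩ a 0
    (fun Φ h => hZ0 Pool.Agent.Helper36.TLV.hLLa Pool.Agent.Helper81.TLV.hLLb uiT
      Pool.Agent.Helper29.TLV.hLPol uiwT msT
      Pool.Agent.Helper34.LV.hRgT Pool.Agent.Helper51.LV.hRgU uqT Pool.Agent.Helper8.TLV.hF0
      Pool.Agent.Helper46.TLV.hLW1 Pool.Agent.Helper61.TLV.hLW2 Pool.Agent.Helper7.TLV.hLW4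
      p ⟨hp⟩ κ hp2 hκ hTA a Φ h) Φ hW

theorem center1 (p : ℕ) (hp : p.Prime) (hp2 : p ≠ 2) (κ : ℤ) (hκ : κ ≠ 0) (hTA : TAE p κ) (a : ℕ)
    (ha : Even a) (Φ : ℤ → ℤ → ℕ → ℂ) (hW : WSNE p a 1 Φ) : EqC (cp Φ a) 0 :=
  Pool.Agent.Helper55.TLV.hLQC Pool.Agent.Helper38.CV.hFar Pool.Agent.Helper44.TLV.hLMap
    Pool.Agent.Helper53.TLV.hLDen p ⟨hp⟩ a 1
    (fun Φ h => hZ1 Pool.Agent.Helper36.TLV.hLLa Pool.Agent.Helper81.TLV.hLLb uiT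
      Pool.Agent.Helper29.TLV.hLPol uiwT msT
      Pool.Agent.Helper34.LV.hRgT Pool.Agent.Helper51.LV.hRgU Pool.Agent.Helper47.LV.hEG egT
      Pool.Agent.Helper73.TLV.hF1
      Pool.Agent.Helper46.TLV.hLW1 Pool.Agent.Helper61.TLV.hLW2 Pool.Agent.Helper7.TLV.hLW4
      p ⟨hp⟩ κ hp2 hκ hTA a ha Φ h) Φ hW

theorem center2 (p : ℕ) (hp : p.Prime) (hp2 : p ≠ 2) (κ : ℤ) (hκ : κ ≠ 0) (hTA : TAE p κ) (a : ℕ)
    (Φ : ℤ → ℤ → ℕ → ℂ) (hW : WSymE p a 0 Φ) : EqC (cp Φ a) 0 :=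
  qc2 Pool.Agent.Helper38.CV.hFar Pool.Agent.Helper99.TLW.hMap Pool.Agent.Helper85.TLW.hDen p ⟨hp⟩
    a 0
    (fun Φ h => hZ2 Pool.Agent.Helper36.TLV.hLLa Pool.Agent.Helper81.TLV.hLLb uiT
      Pool.Agent.Helper96.TLV.hLPol2 mcT Pool.Agent.Helper34.LV.hRgT Pool.Agent.Helper51.LV.hRgU
      Pool.Agent.Helper47.LV.hEG egT Pool.Agent.Helper69.TLV.hM2B Pool.Agent.Helper1.LV.hAV
      Pool.Agent.Helper45.TLV.hF2 Pool.Agent.Helper2.TLV.hM2A Pool.Agent.Helper28.TLW.hW2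
      Pool.Agent.Helper6.TLW.hW4 p ⟨hp⟩ κ hp2 hκ hTA a Φ h) Φ hW

/-- Level `4`. -/
theorem genV0 (p : ℕ) (hp : p.Prime) (hp2 : p ≠ 2) (κ : ℤ) (hκ : κ ≠ 0) (hTA : TAE p κ)
    (A : ℕ) (hA : 1 ≤ A) (hne : NeZero (4 * p ^ 0)) (hk : 0 < (2 * A + 2 : ℤ))
    (f : CuspForm (G0 (4 * p ^ 0)) (2 * A + 2)) (hf : IsNewN f)
    (hε : RootOneK hk f) : LanK hk f (1 / 2) ≠ 0 :=
  hFinV Pool.Agent.Helper85.TLV.hLTr Pool.Agent.Helper47.TLV.hLAll p hp hp2 A 0 hA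
    (fun Φ hW => center0 p hp hp2 κ hκ hTA A Φ hW) hne hk f hf hε

/-- Level `4p`, weights `≡ 2` modulo `4`. -/
theorem genV1 (p : ℕ) (hp : p.Prime) (hp2 : p ≠ 2) (κ : ℤ) (hκ : κ ≠ 0) (hTA : TAE p κ)
    (A : ℕ) (hA : 1 ≤ A) (hev : Even A) (hne : NeZero (4 * p ^ 1)) (hk : 0 < (2 * A + 2 : ℤ))
    (f : CuspForm (G0 (4 * p ^ 1)) (2 * A + 2)) (hf : IsNewN f)
    (hε : RootOneK hk f) : LanK hk f (1 / 2) ≠ 0 :=
  hFinV Pool.Agent.Helper85.TLV.hLTr Pool.Agent.Helper47.TLV.hLAll p hp hp2 A 1 hA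
    (fun Φ hW => center1 p hp hp2 κ hκ hTA A hev Φ hW) hne hk f hf hε

/-- Level `4p^n`, `n ≥ 2`. -/
theorem genV2 (p : ℕ) (hp : p.Prime) (hp2 : p ≠ 2) (κ : ℤ) (hκ : κ ≠ 0) (hTA : TAE p κ)
    (A n : ℕ) (hA : 1 ≤ A) (hn : 2 ≤ n) (hne : NeZero (4 * p ^ n)) (hk : 0 < (2 * A + 2 : ℤ))
    (f : CuspForm (G0 (4 * p ^ n)) (2 * A + 2)) (hf : IsNewN f)
    (hε : RootOneK hk f) : LanK hk f (1 / 2) ≠ 0 := by
  by_cases h3n : 3 ≤ n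
  · exact Pool.Agent.Helper28.TLW.genE p hp hp2 κ hκ hTA A n hA h3n hne hk f hf hε
  obtain rfl : n = 2 := by omega
  exact hFin2V Pool.Agent.Helper16.TLW.hTr Pool.Agent.Helper9.TLW.hAll p hp hp2 A hA
    (fun Φ hW => center2 p hp hp2 κ hκ hTA A Φ hW) hne hk f hf hε

/-- All levels `4 p^n` except `n = 1` in the weights divisible by `4`. -/
theorem genV (p : ℕ) (hp : p.Prime) (hp2 : p ≠ 2) (κ : ℤ) (hκ : κ ≠ 0) (hTA : TAE p κ)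
    (A n : ℕ) (hA : 1 ≤ A) (hn : n ≠ 1 ∨ Even A) (hne : NeZero (4 * p ^ n)) (hk : 0 < (2 * A + 2 : ℤ))
    (f : CuspForm (G0 (4 * p ^ n)) (2 * A + 2)) (hf : IsNewN f)
    (hε : RootOneK hk f) : LanK hk f (1 / 2) ≠ 0 := by
  rcases Nat.lt_or_ge n 2 with h | h
  · have h01 : n = 0 ∨ n = 1 := by omega
    rcases h01 with rfl | rfl
    · exact genV0 p hp hp2 κ hκ hTA A hA hne hk f hf hε
    · exact genV1 p hp hp2 κ hκ hTA A hA (hn.resolve_left fun h => h rfl) hne hk f hf hε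
  · exact genV2 p hp hp2 κ hκ hTA A n hA h hne hk f hf hε

end Pool.Agent.Helper28.TLV
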