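import Pool.Agent.Helper28.TL.StV

/-!
# Assembly over `ℤ_p` for the levels `4`, `4p` (`a` even), `4p²`
-/

set_option autoImplicit false

namespace Pool.Agent.Helper28.TLV

open Pool.Agent.Helper14.CV
open Pool.Agent.Helper28.WK
open Pool.Agent.Helper28.LV
open Pool.Agent.Helper28.TL
open Pool.Agent.Helper4.TL
open Pool.Agent.Helper79.TL (UIpE)

theorem hZ0 (la : VLLa) (lb : VLLb) (ui : UIpE) (pol : VLPol) (uiw : UIWE) (ms : MSE) (rt : RgT)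
    (ru : RgU) (uq : UIqE) (f0 : VF0) (w1 : VLW1) (w2 : VLW2) (w4 : VLW4) (p : ℕ) (hp : Fact p.Prime)
    (κ : ℤ) (hp2 : p ≠ 2) (hκ : κ ≠ 0)
    (hTA : TAE p κ) (a : ℕ) (Φ : ℤ → ℤ → ℕ → ℤ_[p]) (hW : WSNE p a 0 Φ) : EqC (cp Φ a) 0 := by
  obtain ⟨ψ, hψ1, hψ2, hψ3⟩ := lb la ui p hp κ hp2 hTA 0 (cp Φ a) (hW.hom a (by omega))
    (fun M hM => w1 p hp a 0 Φ hW M (by omega)) hW.fr
    hW.st (fun M hM ls hls => w4 p hp a 0 Φ hW M (by omega) ls hls)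
  obtain ⟨hb, hc⟩ := w2 p hp a 0 Φ hW
  obtain ⟨hb', hc'⟩ := pol p hp (3 * κ) a 0 (cp Φ a) ψ hp2 (hW.hom a (by omega)) hψ1 hψ2 hψ3 hb hc
  have hI := uiw p hp (3 * κ) 0 (cp Φ a) ψ hp2 hψ1 hψ2 hψ3 hW.fr
  rw [pow_zero] at hI
  exact f0 ms rt ru uq p hp (3 * κ) a (cp Φ a) ψ hp2 (mul_ne_zero (by norm_num) hκ) hψ1
    (fun M hM => by simpa using hψ2 M hM) hψ3
    (fun c h => hc c (by simpa using h)) hb' (fun c h => hc' c (by simpa using h)) hI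

theorem hZ1 (la : VLLa) (lb : VLLb) (ui : UIpE) (pol : VLPol) (uiw : UIWE) (ms : MSE) (rt : RgT)
    (ru : RgU) (eg : EG) (ege : EGE) (f1 : VF1) (w1 : VLW1) (w2 : VLW2) (w4 : VLW4) (p : ℕ)
    (hp : Fact p.Prime) (κ : ℤ) (hp2 : p ≠ 2) (hκ : κ ≠ 0)
    (hTA : TAE p κ) (a : ℕ) (ha : Even a) (Φ : ℤ → ℤ → ℕ → ℤ_[p])
    (hW : WSNE p a 1 Φ) : EqC (cp Φ a) 0 := by
  obtain ⟨ψ, hψ1, hψ2, hψ3⟩ := lb la ui p hp κ hp2 hTA 1 (cp Φ a) (hW.hom a (by omega))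
    (fun M hM => w1 p hp a 1 Φ hW M (by omega)) hW.fr
    hW.st (fun M hM ls hls => w4 p hp a 1 Φ hW M (by omega) ls hls)
  obtain ⟨hb, hc⟩ := w2 p hp a 1 Φ hW
  obtain ⟨hb', hc'⟩ := pol p hp (3 * κ) a 1 (cp Φ a) ψ hp2 (hW.hom a (by omega)) hψ1 hψ2 hψ3 hb hc
  have hI := uiw p hp (3 * κ) 1 (cp Φ a) ψ hp2 hψ1 hψ2 hψ3 hW.fr
  rw [pow_one] at hI
  refine f1 ms rt ru eg ege p hp (3 * κ) a Φ ψ hp2 (mul_ne_zero (by norm_num) hκ) ha ?_ hψ1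
    (fun M hM => by simpa using hψ2 M hM) hψ3
    hb' (fun c h => hc' c (by simpa using h)) hI
  intro α β γ δ hd hg
  have h := hW.eqv α β γ δ hd (by simpa using hg) a (by omega)
  rwa [show 2 * a - a = a by omega] at h

theorem hZ2 (la : VLLa) (lb : VLLb) (ui : UIpE) (pol : VLPol2) (mc : MCE) (rt : RgT)
    (ru : RgU) (eg : EG) (ege : EGE) (m2b : VM2B) (av : AV) (f2 : VF2) (w1 : VM2A) (w2 : SEW2)
    (w4 : SEW4) (p : ℕ)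
    (hp : Fact p.Prime) (κ : ℤ) (hp2 : p ≠ 2) (hκ : κ ≠ 0)
    (hTA : TAE p κ) (a : ℕ) (Φ : ℤ → ℤ → ℕ → ℤ_[p])
    (hW : WSymE p a 0 Φ) : EqC (cp Φ a) 0 := by
  obtain ⟨ψ, hψ1, hψ2, hψ3⟩ := lb la ui p hp κ hp2 hTA 0 (cp Φ a) (hW.hom a (by omega))
    (fun M hM => w1 p hp a 0 Φ hW M (by omega)) hW.fr
    hW.st (fun M hM ls hls => w4 p hp a 0 Φ hW M (by omega) ls hls)
  obtain ⟨hb, hc⟩ := w2 p hp a 0 Φ hW
  obtain ⟨hb', hc'⟩ := pol p hp (3 * κ) a 0 (cp Φ a) ψ hp2 (hW.hom a (by omega)) hψ1 hψ2 hψ3 hb hc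
  exact f2 mc rt ru eg ege m2b av w2 p hp (3 * κ) a Φ ψ hp2 (mul_ne_zero (by norm_num) hκ) hW hψ1
    (fun M hM => by simpa using hψ2 M hM) hψ3
    hb' (fun c h => hc' c (by simpa using h))

/-- From `ℤ_p` to `ℂ` for the structure `WSymE`. -/
theorem qc2 (hFar : StFar) (hM : SEMap) (hD : SEDen) (p : ℕ) (hp : Fact p.Prime) (a ν : ℕ)
    (hZ : ∀ Φ : ℤ → ℤ → ℕ → ℤ_[p], WSymE p a ν Φ → EqC (cp Φ a) 0)
    (Φ : ℤ → ℤ → ℕ → ℂ) (hW : WSymE p a ν Φ) : EqC (cp Φ a) 0 := by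
  have key : ∀ lam : ℂ →ₗ[ℚ] ℚ, ∀ x y : ℤ, (x ≠ 0 ∨ y ≠ 0) →
      lam (Φ x y a - Φ 1 0 a) = 0 := by
    intro lam
    have h1 : WSymE p a ν (fun x y i => lam (Φ x y i)) :=
      (hM p a ν hp.out.ne_zero ℂ ℚ inferInstance inferInstance lam.toAddMonoidHom Φ).1 hW
    obtain ⟨N, Ψ, hN, hΨ, hE⟩ := hD hFar hM p a ν _ hp.out h1
    have h2 : WSymE p a ν (fun x y i => ((Ψ x y i : ℤ) : ℤ_[p])) :=
      (hM p a ν hp.out.ne_zero ℤ ℤ_[p] inferInstance inferInstance (Int.castAddHom ℤ_[p]) Ψ).1 hΨ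
    obtain ⟨c, hc⟩ := hZ _ h2
    obtain ⟨c', hc'⟩ := hE a (by omega)
    intro x y hxy
    have e0 : (Ψ x y a : ℤ_[p]) = 0 + c := hc x y hxy
    have e0' : (Ψ 1 0 a : ℤ_[p]) = 0 + c := hc 1 0 (Or.inl one_ne_zero)
    have e1 : (Ψ x y a : ℤ_[p]) = (Ψ 1 0 a : ℤ_[p]) := e0.trans e0'.symm
    have e2 : Ψ x y a = Ψ 1 0 a := Int.cast_injective e1
    have e3 : ((Ψ x y a : ℤ) : ℚ) = N • lam (Φ x y a) + c' := hc' x y hxy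
    have e4 : ((Ψ 1 0 a : ℤ) : ℚ) = N • lam (Φ 1 0 a) + c' := hc' 1 0 (Or.inl one_ne_zero)
    have e5 : N • lam (Φ x y a) = N • lam (Φ 1 0 a) := by
      rw [e2] at e3
      exact add_right_cancel (e3.symm.trans e4)
    rw [map_sub, sub_eq_zero]
    have hN' : (N : ℚ) ≠ 0 := by exact_mod_cast hN
    rw [zsmul_eq_mul, zsmul_eq_mul] at e5
    exact mul_left_cancel₀ hN' e5
  refine ⟨Φ 1 0 a, fun x y hxy => ?_⟩
  have h := (Module.forall_dual_apply_eq_zero_iff ℚ (Φ x y a - Φ 1 0 a)).1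
    (fun f => key f x y hxy)
  show Φ x y a = 0 + Φ 1 0 a
  rw [zero_add]
  exact sub_eq_zero.1 h

end Pool.Agent.Helper28.TLV
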